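import Mathlib

set_option autoImplicit false

namespace Pool.Agent.Results.MP_63c1c3_gt.Metrizable

open Set Topology TopologicalSpace

section
variable (X Y : Type) [TopologicalSpace X] [TopologicalSpace Y]

/-- separately continuous real functions on `X × Y` -/
def S : Type :=
  {f : X × Y → ℝ // (∀ x, Continuous fun y => f (x, y)) ∧ ∀ y, Continuous fun x => f (x, y)}

variable {X Y}

/-- the cross of a point -/
def cross (c : X × Y) : Set (X × Y) := {p | p.2 = c.2 ∨ p.1 = c.1}

variable (X Y)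

/-- the cross-open topology; a set open in the cross `C` is written `G ∩ C` with `G` open -/
def cro : TopologicalSpace (S X Y) :=
  generateFrom {T | ∃ (c : X × Y) (G : Set (X × Y)) (W : Set ℝ), IsOpen G ∧ IsOpen W ∧
    T = {s : S X Y | ∀ p ∈ closure (G ∩ cross c) ∩ cross c, s.1 p ∈ W}}

/-- the cross-uniform topology, generated by the balls of the extended pseudometrics `d_c` -/
def cru : TopologicalSpace (S X Y) :=
  generateFrom {T | ∃ (c : X × Y) (s : S X Y) (r : ENNReal),
    T = {t : S X Y | ⨆ p ∈ cross c, edist (s.1 p) (t.1 p) < r}}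

variable {X Y}

lemma metr [SeparableSpace X] [SeparableSpace Y] (τ : TopologicalSpace (S X Y))
    (h : ∀ p, Continuous[τ, _] fun s : S X Y => s.1 p) (K : Set (S X Y))
    (hK : @IsCompact _ τ K) : @MetrizableSpace K (τ.induced Subtype.val) := by
  letI := τ
  obtain ⟨D, hD, hDd⟩ := exists_countable_dense X
  obtain ⟨E, hE, hEd⟩ := exists_countable_dense Y
  haveI := hD.to_subtype
  haveI := hE.to_subtype
  haveI : CompactSpace K := isCompact_iff_compactSpace.1 hK
  let φ : K → (D × E → ℝ) := fun s q => s.1.1 (q.1, q.2)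
  have hc : Continuous φ := continuous_pi fun q => (h _).comp continuous_subtype_val
  have hi : Function.Injective φ := by
    intro s t hst
    apply Subtype.ext
    apply Subtype.ext
    funext ⟨x, y⟩
    have h1 : ∀ a ∈ D, s.1.1 (a, y) = t.1.1 (a, y) := fun a ha =>
      congrFun (Continuous.ext_on hEd (s.1.2.1 a) (t.1.2.1 a)
        fun b hb => congrFun hst (⟨a, ha⟩, ⟨b, hb⟩)) y
    exact congrFun (Continuous.ext_on hDd (s.1.2.2 y) (t.1.2.2 y) h1) x
  exact (hc.isClosedEmbedding hi).isEmbedding.metrizableSpace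

lemma cru_cont (p : X × Y) : Continuous[cru X Y, _] fun s : S X Y => s.1 p := by
  letI := cru X Y
  refine ⟨fun W hW => isOpen_iff_forall_mem_open.2 fun s hs => ?_⟩
  obtain ⟨r, hr, hb⟩ := EMetric.isOpen_iff.1 hW _ hs
  refine ⟨{t : S X Y | ⨆ q ∈ cross p, edist (s.1 q) (t.1 q) < r}, fun t ht => hb ?_,
    isOpen_generateFrom_of_mem ⟨p, s, r, rfl⟩, by simpa using hr⟩
  rw [Metric.mem_eball, edist_comm]
  exact lt_of_le_of_lt (le_iSup₂ (f := fun q (_ : q ∈ cross p) => edist (s.1 q) (t.1 q)) p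
    (Or.inl rfl)) ht

lemma cro_cont [T1Space X] [T1Space Y] (p : X × Y) :
    Continuous[cro X Y, _] fun s : S X Y => s.1 p := by
  letI := cro X Y
  refine ⟨fun W hW => isOpen_iff_forall_mem_open.2 fun s hs => ?_⟩
  obtain ⟨V, hV, hVc, hVW⟩ := exists_mem_nhds_isClosed_subset (hW.mem_nhds hs)
  obtain ⟨V', hV', hVo, hp⟩ := mem_nhds_iff.1 hV
  have hcont : ContinuousOn s.1 (cross p) := by
    have e : cross p = {q | q.2 = p.2} ∪ {q | q.1 = p.1} := rfl
    rw [e]
    refine ContinuousOn.union_of_isClosed ?_ ?_ (isClosed_singleton.preimage continuous_snd)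
      (isClosed_singleton.preimage continuous_fst)
    · refine (((s.2.2 p.2).comp continuous_fst).continuousOn).congr ?_
      rintro ⟨a, b⟩ h
      simp only [mem_ofPred_eq] at h
      simp [h]
    · refine (((s.2.1 p.1).comp continuous_snd).continuousOn).congr ?_
      rintro ⟨a, b⟩ h
      simp only [mem_ofPred_eq] at h
      simp [h]
  obtain ⟨G, hG, hGe⟩ := continuousOn_iff'.1 hcont V' hVo
  have hpG : p ∈ G ∩ cross p := hGe ▸ ⟨hp, Or.inl rfl⟩
  refine ⟨{t : S X Y | ∀ q ∈ closure (G ∩ cross p) ∩ cross p, t.1 q ∈ W},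
    fun t ht => ht p ⟨subset_closure hpG, hpG.2⟩,
    isOpen_generateFrom_of_mem ⟨p, G, W, hG, hW, rfl⟩, ?_⟩
  rintro q ⟨h1, h2⟩
  apply hVW
  have h3 := ((hcont q h2).mono inter_subset_right).mem_closure_image h1
  refine closure_minimal ?_ hVc h3
  rintro _ ⟨z, hz, rfl⟩
  rw [← hGe] at hz
  exact hV' hz.1

end

theorem result (X Y : Type) [TopologicalSpace X] [TopologicalSpace Y] [PolishSpace X]
    [PolishSpace Y] (K : Set (S X Y)) :
    (@IsCompact _ (cro X Y) K → @MetrizableSpace K ((cro X Y).induced Subtype.val)) ∧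
    (@IsCompact _ (cru X Y) K → @MetrizableSpace K ((cru X Y).induced Subtype.val)) :=
  ⟨metr _ cro_cont K, metr _ cru_cont K⟩

end Pool.Agent.Results.MP_63c1c3_gt.Metrizable
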